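import Pool.Agent.Work.MP_820435_lc.All.Every
import Pool.Agent.Work.MP_820435_lc.All.Nec
import Pool.Agent.Work.MP_820435_lc.All.Model
import Pool.Agent.Work.MP_820435_lc.All.Outer

/-! Every limit ordinal gets the infinite path relation in a larger model with the same cardinals; and
it is consistent, relative to a tail-free cardinal, that all limit ordinals have it. -/

open Ordinal Cardinal

namespace Pool.Agent.Results.MP_820435_lc.AllLimitOrdinals

open Pool.Agent.SigB (IsZFC IsOrdinal IsCardinal)
open Pool.Agent.W820.All (TailFreeSet GenericSet)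
open Pool.Agent.W820.AllM (IsTailFree IsGenericSet)

universe u v

/-- The relation `α → (α, infinite path)`. -/
def PathRelation (α : Ordinal.{u}) : Prop :=
  ∀ (X : Type u) [LinearOrder X] [WellFoundedLT X], typeLT X = α → ∀ G : SimpleGraph X,
    (∃ S : Set X, typeLT S = α ∧ ∀ x ∈ S, ∀ y ∈ S, ¬ G.Adj x y) ∨
      ∃ x : ℕ → X, Function.Injective x ∧ ∀ n, G.Adj (x n) (x (n + 1))

/-- The set `A` is `ω`-Erdős: every colouring of the finite subsets of `A` with two colours has an
infinite homogeneous set. -/
def IsErdosOmega (A : Type u) : Prop :=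
  ∀ c : Finset A → Prop, ∃ H : Set A, H.Infinite ∧
    ∀ s t : Finset A, (s : Set A) ⊆ H → (t : Set A) ⊆ H → s.card = t.card → (c s ↔ c t)

/-- `e` embeds `M` onto a transitive class of `N`, and `M` and `N` have the same ordinals and the
same cardinals. -/
def IsOuterModel {M N : Type v} [Membership M M] [Membership N N] (e : M → N) : Prop :=
  (∀ x y, e x ∈ e y ↔ x ∈ y) ∧ (∀ x z, z ∈ e x → ∃ y, y ∈ x ∧ z = e y) ∧
    (∀ z, IsOrdinal z → ∃ x, z = e x) ∧ ∀ x, IsCardinal (e x) ↔ IsCardinal x

/-- (1) For every set `a` of a countable model of ZFC there is an outer model of ZFC with the same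
ordinals and cardinals which satisfies Martin's axiom for the finite partial functions from `a` to
`{0, 1}` and `|a|` dense sets; if `a` is tail-free, it remains so. (2) This axiom implies the relation
for all limit ordinals of cardinality at most `|a|`; and for all limit ordinals if `a` is tail-free.
(3) Every model of ZFC with a tail-free set yields a model of ZFC with such a tail-free set.
(4) Conversely, if every limit ordinal has the relation, then there is a tail-free set, or
`2 ^ μ > μ⁺` for all infinite cardinals `μ`. (5) All `ω`-Erdős sets are tail-free. -/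
theorem result :
    (∀ (M : Type v) [Membership M M] [IsZFC M] [Countable M] (a : M),
      ∃ (N : Type v) (_ : Membership N N) (e : M → N), IsZFC N ∧ IsOuterModel e ∧
        IsGenericSet (e a) ∧ (IsTailFree a → IsTailFree (e a))) ∧
    (∀ A : Type u, GenericSet A → ∀ α : Ordinal.{u}, Order.IsSuccLimit α →
      α.card ≤ #A ∨ TailFreeSet A → PathRelation α) ∧
    (∀ (M : Type v) [Membership M M] [IsZFC M], (∃ a : M, IsTailFree a) →
      ∃ (N : Type v) (_ : Membership N N), IsZFC N ∧ ∃ b : N, IsTailFree b ∧ IsGenericSet b) ∧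
    ((∀ α : Ordinal.{u}, Order.IsSuccLimit α → PathRelation α) →
      (∃ A : Type u, TailFreeSet A) ∨ ∀ μ : Cardinal.{u}, ℵ₀ ≤ μ → Order.succ μ < 2 ^ μ) ∧
    (∀ A : Type u, IsErdosOmega A → TailFreeSet A) := by
  refine ⟨fun M _ _ _ a => ?_, ?_, fun M _ _ ⟨a, ha⟩ => IPath.exists_model M a ha, fun h => ?_,
    fun A hA => ?_⟩
  · obtain ⟨N, iN, e, h1, h2, h3, h4, h5, h6, h7⟩ := IPath.exists_outer M a
    exact ⟨N, iN, e, h1, ⟨h2, h3, h4, h5⟩, h7, h6⟩
  · intro A hG α hα h
    have hω : ω ∣ α := IPath.zero_or_limit_iff.1 (Or.inr hα)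
    rcases h with h | h
    · have h1 : ℵ₀ ≤ α.card := by
        rw [← card_omega0]
        exact Ordinal.card_le_card (omega0_le_of_isSuccLimit hα)
      have : Infinite A := Cardinal.infinite_iff.2 (h1.trans h)
      exact IPath.pathRel_of_generic hG h hω
    · exact IPath.pathRel_of_tailFree_generic h hG hω
  · refine IPath.exists_tailFree_of_all fun α hα => ?_
    rcases IPath.zero_or_limit_iff.2 hα with rfl | h1
    · exact IPath.pathRel_zero
    · exact h α h1
  · refine Pool.Agent.W820.All.tailFreeSet_of_tailFreeC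
      (IPath.tailFreeC_of_erdosOmega (ν := #A) ?_ A rfl)
    intro B hB c
    obtain ⟨e⟩ := Cardinal.eq.1 hB
    obtain ⟨H, hH, hc⟩ := hA fun s => c (s.map e.symm.toEmbedding)
    refine ⟨e.symm '' H, hH.image e.symm.injective.injOn, fun s t hs ht hst => ?_⟩
    have hb : ∀ s : Finset B, (s.map e.toEmbedding).map e.symm.toEmbedding = s := by
      intro s
      ext x
      simp
    have hm : ∀ s : Finset B, (s : Set B) ⊆ e.symm '' H →
        ((s.map e.toEmbedding : Finset A) : Set A) ⊆ H := by
      intro s hs x hx
      simp only [Finset.coe_map, Equiv.coe_toEmbedding, Set.mem_image, Finset.mem_coe] at hx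
      obtain ⟨y, hy, rfl⟩ := hx
      obtain ⟨z, hz, hzy⟩ := hs hy
      rw [← hzy, Equiv.apply_symm_apply]
      exact hz
    have h1 := hc _ _ (hm s hs) (hm t ht) (by rw [Finset.card_map, Finset.card_map, hst])
    simp only [hb] at h1
    exact h1

end Pool.Agent.Results.MP_820435_lc.AllLimitOrdinals
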