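import Pool.Agent.Work.MP_820435_lc.Cls.GchBad
import Pool.Agent.Work.MP_820435_lc.Cls.Omega
import Pool.Agent.Work.MP_820435_lc.All.Every
import Pool.Agent.Work.MP_820435_lc.All.Outer
import Pool.Agent.GL.Gch

/-! The limit ordinals with the infinite path relation: the exact list under the generalized continuum
hypothesis, and the absence of counterexamples in ZFC. -/

open Ordinal Cardinal

namespace Pool.Agent.Results.MP_820435_lc.Determination

open Pool.Agent.SigB (IsZFC IsOrdinal IsCardinal)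
open Pool.Agent.Forc (GCH)
open Pool.Agent.W820.All (TailFreeSet GenericSet)
open Pool.Agent.W820.AllM (IsTailFree IsGenericSet)
open IPath (IsBad)

universe u v

/-- The relation `α → (α, infinite path)`. -/
def PathRelation (α : Ordinal.{u}) : Prop :=
  ∀ (X : Type u) [LinearOrder X] [WellFoundedLT X], typeLT X = α → ∀ G : SimpleGraph X,
    (∃ S : Set X, typeLT S = α ∧ ∀ x ∈ S, ∀ y ∈ S, ¬ G.Adj x y) ∨
      ∃ x : ℕ → X, Function.Injective x ∧ ∀ n, G.Adj (x n) (x (n + 1))

/-- `e` embeds `M` onto a transitive class of `N`, and `M` and `N` have the same ordinals and the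
same cardinals. -/
def IsOuterModel {M N : Type v} [Membership M M] [Membership N N] (e : M → N) : Prop :=
  (∀ x y, e x ∈ e y ↔ x ∈ y) ∧ (∀ x z, z ∈ e x → ∃ y, y ∈ x ∧ z = e y) ∧
    (∀ z, IsOrdinal z → ∃ x, z = e x) ∧ ∀ x, IsCardinal (e x) ↔ IsCardinal x

/-- The exact list under GCH: (1) every model of ZFC yields a model of ZFC and GCH; (2) under GCH, a
limit ordinal `α` has the relation if and only if no exponent `κ * ξ + ρ` of its Cantor normal form,
where `κ` is regular and uncountable, `|ξ| ≤ κ` and `ρ < κ`, has `ξ` bad for `κ`; (3) one half of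
this in ZFC. No counterexamples in ZFC: (4) for every set `a` of a countable model of ZFC there is
an outer model with the same ordinals and cardinals in which `a` is generic, and tail-free if it
was; (5) if `A` is generic then all limit ordinals of cardinality at most `|A|` have the relation,
and all limit ordinals if `A` is tail-free as well. -/
theorem result :
    ((∀ (M : Type v) [Membership M M] [IsZFC M],
        ∃ (N : Type v) (_ : Membership N N), IsZFC N ∧ GCH N) ∧
      ((∀ μ : Cardinal.{u}, ℵ₀ ≤ μ → 2 ^ μ = Order.succ μ) →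
        ∀ α : Ordinal.{u}, Order.IsSuccLimit α → (PathRelation α ↔
          ∀ p ∈ CNF ω α, ∀ κ : Cardinal.{u}, κ.IsRegular → ℵ₀ < κ → ∀ ξ ρ : Ordinal.{u},
            ξ.card ≤ κ → ρ < κ.ord → p.1 = κ.ord * ξ + ρ → ¬ IsBad κ ξ)) ∧
      (∀ κ : Cardinal.{u}, κ.IsRegular → ℵ₀ < κ → ∀ ξ ρ : Ordinal.{u}, ξ ≠ 0 → ξ.card ≤ κ →
        ρ < κ.ord → ¬ IsBad κ ξ → PathRelation (ω ^ (κ.ord * ξ + ρ)))) ∧
    ((∀ (M : Type v) [Membership M M] [IsZFC M] [Countable M] (a : M),
        ∃ (N : Type v) (_ : Membership N N) (e : M → N), IsZFC N ∧ IsOuterModel e ∧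
          IsGenericSet (e a) ∧ (IsTailFree a → IsTailFree (e a))) ∧
      (∀ A : Type u, GenericSet A → ∀ α : Ordinal.{u}, Order.IsSuccLimit α →
        α.card ≤ #A ∨ TailFreeSet A → PathRelation α)) := by
  refine ⟨⟨fun M _ _ => Pool.Agent.GL.exists_gch M, fun hgch α hα => ?_,
    fun κ hκ hκ1 ξ ρ h0 h1 h2 h3 => IPath.pathRel_of_not_isBad hκ hκ1 h0 h1 h2 h3⟩,
    fun M _ _ _ a => ?_, ?_⟩
  · exact IPath.pathRel_iff_isBad hgch (IPath.zero_or_limit_iff.1 (Or.inr hα))
  · obtain ⟨N, iN, e, h1, h2, h3, h4, h5, h6, h7⟩ := IPath.exists_outer M a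
    exact ⟨N, iN, e, h1, ⟨h2, h3, h4, h5⟩, h7, h6⟩
  · intro A hG α hα h
    have hω : ω ∣ α := IPath.zero_or_limit_iff.1 (Or.inr hα)
    rcases h with h | h
    · have h1 : ℵ₀ ≤ α.card := by
        rw [← card_omega0]
        exact Ordinal.card_le_card (omega0_le_of_isSuccLimit hα)
      have : Infinite A := Cardinal.infinite_iff.2 (h1.trans h)
      exact IPath.pathRel_of_generic hG h hω
    · exact IPath.pathRel_of_tailFree_generic h hG hω

end Pool.Agent.Results.MP_820435_lc.Determination
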