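import Pool.Agent.Work.MP_820435_lc.Cls.GchBad
import Pool.Agent.Work.MP_820435_lc.Cls.Omega
import Pool.Agent.Work.MP_820435_lc.Cls.First
import Pool.Agent.Work.MP_820435_lc.Cls.FirstAll
import Pool.Agent.GL.Gch

/-! The limit ordinals with the infinite path relation under the generalized continuum
hypothesis. -/

open Ordinal Cardinal

namespace Pool.Agent.Results.MP_820435_lc.GCHClassification

open Pool.Agent.SigB (IsZFC)
open Pool.Agent.Forc (GCH)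
open IPath (RankGE IsBad firstExp)

universe u v

/-- The relation `α → (α, infinite path)`. -/
def PathRelation (α : Ordinal.{u}) : Prop :=
  ∀ (X : Type u) [LinearOrder X] [WellFoundedLT X], typeLT X = α → ∀ G : SimpleGraph X,
    (∃ S : Set X, typeLT S = α ∧ ∀ x ∈ S, ∀ y ∈ S, ¬ G.Adj x y) ∨
      ∃ x : ℕ → X, Function.Injective x ∧ ∀ n, G.Adj (x n) (x (n + 1))

/-- (1) Every model of ZFC yields a model of ZFC and GCH. (2) Under GCH, a limit ordinal `α` has the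
relation if and only if no exponent `e = κ * ξ + ρ` of its Cantor normal form, where `κ` is regular
and uncountable, `|ξ| ≤ κ` and `ρ < κ`, has `ξ` bad for `κ`. (3) In ZFC, one of the two directions
for the ordinals `ω ^ (κ * ξ + ρ)`. (4) Bad exponents for successor cardinals and for `ω₁`. (5) The
least bad exponent for `ℵ_(n + 1)`. -/
theorem result :
    (∀ (M : Type v) [Membership M M] [IsZFC M],
      ∃ (N : Type v) (_ : Membership N N), IsZFC N ∧ GCH N) ∧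
    ((∀ μ : Cardinal.{u}, ℵ₀ ≤ μ → 2 ^ μ = Order.succ μ) →
      ∀ α : Ordinal.{u}, Order.IsSuccLimit α → (PathRelation α ↔
        ∀ p ∈ CNF ω α, ∀ κ : Cardinal.{u}, κ.IsRegular → ℵ₀ < κ → ∀ ξ ρ : Ordinal.{u},
          ξ.card ≤ κ → ρ < κ.ord → p.1 = κ.ord * ξ + ρ → ¬ IsBad κ ξ)) ∧
    (∀ κ : Cardinal.{u}, κ.IsRegular → ℵ₀ < κ → ∀ ξ ρ : Ordinal.{u}, ξ ≠ 0 → ξ.card ≤ κ →
      ρ < κ.ord → ¬ IsBad κ ξ → PathRelation (ω ^ (κ.ord * ξ + ρ))) ∧
    (∀ ν : Cardinal.{u}, ℵ₀ ≤ ν → ∀ ξ : Ordinal.{u}, ξ.card ≤ Order.succ ν →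
      (IsBad (Order.succ ν) ξ ↔
        ∃ g, g + 2 ≤ ξ ∧ ∀ η < ξ, RankGE η (fun _ : ν.ord.ToType => g)) ∧
      (ν = ℵ₀ → (IsBad (Order.succ ν) ξ ↔ ω + 2 ≤ ξ))) ∧
    (∀ n : ℕ, IsBad (Order.succ (ℵ_ n)) (firstExp.{u} n + 2) ∧
      ((∀ μ : Cardinal.{u}, ℵ₀ ≤ μ → 2 ^ μ = Order.succ μ) →
        ∀ ξ < firstExp.{u} n + 2, ¬ IsBad (Order.succ (ℵ_ n)) ξ)) := by
  refine ⟨fun M _ _ => Pool.Agent.GL.exists_gch M, fun hgch α hα => ?_,
    fun κ hκ hκ1 ξ ρ h0 h1 h2 h3 => IPath.pathRel_of_not_isBad hκ hκ1 h0 h1 h2 h3,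
    fun ν hν ξ hξ => ⟨IPath.isBad_succ_iff hν hξ, ?_⟩,
    fun n => ⟨IPath.isBad_firstExp n, fun hgch ξ hξ => IPath.not_isBad_of_lt hgch hξ⟩⟩
  · exact IPath.pathRel_iff_isBad hgch (IPath.zero_or_limit_iff.1 (Or.inr hα))
  · rintro rfl
    rw [IPath.isBad_succ_iff hν hξ]
    exact IPath.rank_omega_iff

end Pool.Agent.Results.MP_820435_lc.GCHClassification
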