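import Pool.Agent.Work.MP_820435_lc.Sg4
import Pool.Agent.Work.MP_820435_lc.Cnf

/-! The infinite path relation: reduction to indecomposable ordinals whose cardinality is neither
of countable cofinality nor a singular cardinal closed under the power operation with exponent its
cofinality. -/

open Ordinal Cardinal

namespace Pool.Agent.Results.MP_820435_lc.SingularCardinality

universe u

/-- The relation `α → (α, infinite path)`. -/
def PathRelation (α : Ordinal.{u}) : Prop :=
  ∀ (X : Type u) [LinearOrder X] [WellFoundedLT X], typeLT X = α → ∀ G : SimpleGraph X,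
    (∃ S : Set X, typeLT S = α ∧ ∀ x ∈ S, ∀ y ∈ S, ¬ G.Adj x y) ∨
      ∃ x : ℕ → X, Function.Injective x ∧ ∀ n, G.Adj (x n) (x (n + 1))

/-- The cardinal `μ` has cofinality `ω`, or it is singular and `ρ ^ cf μ < μ` for all `ρ < μ`. -/
def IsTame (μ : Cardinal.{u}) : Prop :=
  μ.ord.cof = ℵ₀ ∨ (μ.ord.cof < μ ∧ ∀ ρ < μ, ρ ^ μ.ord.cof < μ)

theorem pathRel_of_tame {e : Ordinal.{u}} (h : IsTame (ω ^ e : Ordinal.{u}).card) :
    IPath.PathRel (ω ^ e) := by
  rcases h with h | ⟨h1, h2⟩
  · exact IPath.pathRel_of_cof_aleph0 h rfl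
  · rcases eq_or_ne e 0 with rfl | he
    · exfalso
      rw [opow_zero] at h1
      simp at h1
    · refine IPath.pathRel_of_singular ?_ h1 h2 rfl
      have h3 : (ω : Ordinal.{u}) ≤ ω ^ e := left_le_opow ω (pos_iff_ne_zero.2 he)
      have h4 := Ordinal.card_le_card h3
      rwa [card_omega0] at h4

/-- Let `α` be `0` or a limit ordinal. Then `α` has the relation if and only if `ω ^ e` has it for
every exponent `e` of the Cantor normal form of `α` such that the cardinality of `ω ^ e` is not
tame. -/
theorem result (α : Ordinal.{u}) (hα : α = 0 ∨ Order.IsSuccLimit α) :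
    PathRelation α ↔ ∀ p ∈ CNF ω α, ¬ IsTame (ω ^ p.1).card → PathRelation (ω ^ p.1) := by
  constructor
  · intro h p hp _
    exact IPath.pathRel_of_mem_CNF α h p hp
  · intro h
    refine IPath.pathRel_of_forall_CNF α (IPath.zero_or_limit_iff.1 hα) ?_
    intro p hp
    by_cases hc : IsTame (ω ^ p.1).card
    · exact pathRel_of_tame hc
    · exact h p hp hc

end Pool.Agent.Results.MP_820435_lc.SingularCardinality
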